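import Pool.Agent.K3h30.ASC.Final

/-!
# MP_f5e7e2_co: both Pfaffian identities for Al-Salam–Carlitz moments

Let `L` be the moment functional of the Al-Salam–Carlitz polynomials `U_n`, `L(x^r) = g_r`, and let
`D` be the `q`-derivative. The matrix of Q1 is the Gram matrix, in the basis `x^i`, of the
alternating form `⟨f, g⟩ = L(f Dg - g Df)`, and the matrix of Q2 that of `L(x (f Dg - g Df))`. In
the basis `U_i` (a unitriangular change of basis, so the Pfaffian does not change) the first is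
tridiagonal and the second has bandwidth two. The first Pfaffian is then a product, and the
second one satisfies a three term recurrence, which is the recurrence of the
Rogers–Szegő polynomials in base `q⁻²`.
-/

namespace Pool.Agent.Results.MP_f5e7e2_co.AlSalamCarlitzPfaffians

open Finset

variable {K : Type*} [Field K]

/-- `(q;q)_m = (1 - q) (1 - q²) ⋯ (1 - q^m)`. -/
def poch (q : K) (m : ℕ) : K := ∏ i ∈ range m, (1 - q ^ (i + 1))

/-- The Gaussian binomial `[m over k]_q = (q;q)_m / ((q;q)_k (q;q)_{m-k})`, used for `k ≤ m`. -/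
def gauss (q : K) (m k : ℕ) : K := poch q m / (poch q k * poch q (m - k))

/-- `G_r(a;q) = ∑_{j=0}^r [r over j]_q a^j`. -/
def G (a q : K) (r : ℕ) : K := ∑ j ∈ range (r + 1), gauss q r j * a ^ j

/-- The Pfaffian `(1 / (2^n n!)) ∑_σ sgn σ ∏_{k=1}^n A_{σ(2k-1), σ(2k)}` of a `2n × 2n` matrix
(rows and columns numbered from `0`). -/
def Pf (n : ℕ) (A : Matrix (Fin (2 * n)) (Fin (2 * n)) K) : K :=
  1 / (2 ^ n * (n.factorial : K)) * ∑ σ : Equiv.Perm (Fin (2 * n)),
    ((Equiv.Perm.sign σ : ℤ) : K) *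
      ∏ k : Fin n, A (σ ⟨2 * (k : ℕ), by omega⟩) (σ ⟨2 * (k : ℕ) + 1, by omega⟩)

/-- `e(n) = m (16 m² - 1) / 3 - (-1)^n 4 m²` with `m = ⌊n/2⌋`. -/
def e (n : ℕ) : ℤ :=
  ((n / 2 : ℕ) : ℤ) * (16 * ((n / 2 : ℕ) : ℤ) ^ 2 - 1) / 3 - (-1) ^ n * (4 * ((n / 2 : ℕ) : ℤ) ^ 2)

/-- `P_n = ∏_{k=1}^n (q;q)_{2k-1}`. -/
def P (q : K) (n : ℕ) : K := ∏ k ∈ range n, poch q (2 * k + 1)

/-- `c_k = ⌊(n - 2k)² / 2⌋`. -/
def c (n k : ℕ) : ℤ := ((n : ℤ) - 2 * k) ^ 2 / 2

theorem e_eq (n : ℕ) : e n = (Pool.Agent.K3h30.ASC.EE n : ℤ) +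
    2 * ((n / 2 : ℕ) : ℤ) * (((n - 1) / 2 : ℕ) : ℤ) := by
  have h6 := Pool.Agent.K3h30.ASC.EE_six n
  unfold e
  rcases Nat.even_or_odd' n with ⟨m, h | h⟩
  · subst h
    rw [show 2 * m / 2 = m by omega]
    have h3 : (m : ℤ) * (16 * (m : ℤ) ^ 2 - 1) / 3 =
        (Pool.Agent.K3h30.ASC.EE (2 * m) : ℤ) + 6 * (m : ℤ) ^ 2 - 2 * m := by
      apply Int.ediv_eq_of_eq_mul_left (by norm_num)
      push_cast at h6
      linarith
    rw [h3, Even.neg_one_pow (even_two_mul m)]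
    rcases m with _ | m
    · simp
    · rw [show (2 * (m + 1) - 1) / 2 = m by omega]
      push_cast
      ring
  · subst h
    rw [show (2 * m + 1) / 2 = m by omega, show (2 * m + 1 - 1) / 2 = m by omega]
    have h3 : (m : ℤ) * (16 * (m : ℤ) ^ 2 - 1) / 3 =
        (Pool.Agent.K3h30.ASC.EE (2 * m + 1) : ℤ) - 2 * (m : ℤ) ^ 2 := by
      apply Int.ediv_eq_of_eq_mul_left (by norm_num)
      push_cast at h6
      linarith
    rw [h3, Odd.neg_one_pow ⟨m, rfl⟩]
    ring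

theorem c_eq (n k : ℕ) : 2 * ((n / 2 : ℕ) : ℤ) * (((n - 1) / 2 : ℕ) : ℤ) + c n k =
    (n : ℤ) * (n - 1) - 2 * (k * (n - k)) := by
  unfold c
  rcases Nat.even_or_odd' n with ⟨m, h | h⟩
  · subst h
    have h3 : (((2 * m : ℕ) : ℤ) - 2 * k) ^ 2 / 2 = 2 * ((m : ℤ) - k) ^ 2 := by
      apply Int.ediv_eq_of_eq_mul_left (by norm_num)
      push_cast
      ring
    rw [h3, show 2 * m / 2 = m by omega]
    rcases m with _ | m
    · simp
      ring
    · rw [show (2 * (m + 1) - 1) / 2 = m by omega]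
      push_cast
      ring
  · subst h
    have h3 : (((2 * m + 1 : ℕ) : ℤ) - 2 * k) ^ 2 / 2 = 2 * ((m : ℤ) - k) ^ 2 + 2 * (m - k) := by
      have h4 : (((2 * m + 1 : ℕ) : ℤ) - 2 * k) ^ 2 = 1 + 2 * (2 * ((m : ℤ) - k) ^ 2 + 2 * (m - k)) := by
        push_cast
        ring
      rw [h4, Int.add_mul_ediv_left _ _ (by norm_num)]
      norm_num
    rw [h3, show (2 * m + 1) / 2 = m by omega, show (2 * m + 1 - 1) / 2 = m by omega]
    push_cast
    ring

/-- Q1 and Q2. Let `K` be a field of characteristic zero and `a, q ∈ K` with `q ≠ 0` not a root of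
unity (for instance `K = ℚ(a, q)`, which gives the identities in `ℤ[a, q]`). Both
evaluations hold for every `n ≥ 1`; with rows and columns numbered from `0` the entries
`(x_i - x_j) g_{i+j-3}` and `(x_i - x_j) g_{i+j-2}` become `(q^i - q^j) g_{i+j-1}` and
`(q^i - q^j) g_{i+j}`. -/
theorem result {K : Type*} [Field K] [CharZero K] (a q : K) (hq0 : q ≠ 0)
    (hq : ∀ i : ℕ, 0 < i → q ^ i ≠ 1) (n : ℕ) (_hn : 1 ≤ n) :
    Pf n (Matrix.of fun i j : Fin (2 * n) =>
        (q ^ (i : ℕ) - q ^ (j : ℕ)) * G a q ((i : ℕ) + (j : ℕ) - 1)) =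
      a ^ (n * (n - 1)) *
        q ^ (e n - 2 * ((n / 2 : ℕ) : ℤ) * (((n - 1) / 2 : ℕ) : ℤ)) * P q n ∧
    Pf n (Matrix.of fun i j : Fin (2 * n) =>
        (q ^ (i : ℕ) - q ^ (j : ℕ)) * G a q ((i : ℕ) + (j : ℕ))) =
      a ^ (n * (n - 1)) * q ^ (e n) * P q n *
        ∑ k ∈ range (n + 1), q ^ (c n k) * gauss (q ^ 2) n k * a ^ k := by
  have hPf : ∀ A : Matrix (Fin (2 * n)) (Fin (2 * n)) K, (∀ i j, A i j = - A j i) →
      Pf n A = Pool.Agent.Helper929.pf (2 * n) A := by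
    intro A hA
    have h := Pool.Agent.K3h30.ASC.psum_pf n A hA
    have h2 : Pf n A = 1 / (2 ^ n * (n.factorial : K)) * Pool.Agent.K3h30.ASC.psum n A := rfl
    have h3 : (2 ^ n * (n.factorial : K)) ≠ 0 :=
      mul_ne_zero (pow_ne_zero _ two_ne_zero) (Nat.cast_ne_zero.mpr n.factorial_ne_zero)
    rw [h2, h, ← mul_assoc, one_div, inv_mul_cancel₀ h3, one_mul]
  have hG : ∀ r, G a q r = Pool.Agent.K3h30.ASC.gg q a r := fun r => rfl
  have hP : P q n = ∏ k ∈ range n, Pool.Agent.K3h30.ASC.qp q (2 * k + 1) := rfl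
  have hPi := Pool.Agent.K3h30.ASC.Pi_eq q a n
  have he : ∀ x y : ℤ, q ^ (x + y) = q ^ x * q ^ y := fun x y => zpow_add₀ hq0 x y
  constructor
  · rw [hPf]
    · have h1 := Pool.Agent.K3h30.ASC.pf_b0 q a n
      simp only [hG]
      rw [h1, Pool.Agent.K3h30.ASC.W_b0 hq]
      simp only [Nat.zero_add]
      have h2 : ∏ k ∈ range n, (1 - q ^ (2 * k + 1)) * Pool.Agent.K3h30.ASC.hh q a (2 * k) =
        Pool.Agent.K3h30.ASC.Pi' q a n := rfl
      rw [h2, hPi, hP, e_eq]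
      congr 2
      rw [add_sub_cancel_right, zpow_natCast]
    · intro i j
      simp only [Matrix.of_apply]
      rw [Nat.add_comm (i : ℕ) (j : ℕ)]
      ring
  · rw [hPf]
    · have h1 := Pool.Agent.K3h30.ASC.pf_b1 q a n
      simp only [hG]
      rw [h1, Pool.Agent.K3h30.ASC.W_b1 hq0 hq, hPi, hP]
      have hR : Pool.Agent.K3h30.ASC.RR q a n =
          q ^ (2 * ((n / 2 : ℕ) : ℤ) * (((n - 1) / 2 : ℕ) : ℤ)) *
          ∑ k ∈ range (n + 1), q ^ (c n k) * gauss (q ^ 2) n k * a ^ k := by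
        unfold Pool.Agent.K3h30.ASC.RR Pool.Agent.K3h30.ASC.gg
        rw [Finset.mul_sum, Finset.mul_sum]
        apply Finset.sum_congr rfl
        intro k hk
        rw [Finset.mem_range] at hk
        have hp0 : q ^ 2 ≠ 0 := pow_ne_zero 2 hq0
        have hp : ∀ i : ℕ, 0 < i → (q ^ 2) ^ i ≠ 1 := by
          intro i hi h
          rw [← pow_mul] at h
          exact hq (2 * i) (by omega) h
        have h2 := Pool.Agent.K3h30.ASC.gb_inv hp0 hp n k (by omega)
        have h3 : gauss (q ^ 2) n k = Pool.Agent.K3h30.ASC.gb (q ^ 2) n k := rfl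
        rw [h3, ← h2, ← pow_mul]
        have h4 := c_eq n k
        have h5 : q ^ (2 * ((n / 2 : ℕ) : ℤ) * (((n - 1) / 2 : ℕ) : ℤ)) * q ^ (c n k) *
            q ^ (2 * (k * (n - k))) = q ^ (n * (n - 1)) := by
          rw [← he, h4, ← zpow_natCast q (2 * (k * (n - k))), ← he, ← zpow_natCast]
          congr 1
          have h6 : ((n - k : ℕ) : ℤ) = (n : ℤ) - k := by
            rw [Nat.cast_sub (by omega)]
          have h7 : ((n * (n - 1) : ℕ) : ℤ) = (n : ℤ) * (n - 1) := by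
            rcases n with _ | n
            · simp
            · push_cast
              ring
          rw [h7]
          push_cast [h6]
          ring
        rw [← h5]
        ring
      rw [hR, e_eq, he, zpow_natCast]
      ring
    · intro i j
      simp only [Matrix.of_apply]
      rw [Nat.add_comm (i : ℕ) (j : ℕ)]
      ring

end Pool.Agent.Results.MP_f5e7e2_co.AlSalamCarlitzPfaffians
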